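import Pool.Agent.Helper19.HV.Curve
import Pool.Agent.Helper91.PL.A6

/-!
# Project HV (MP_bae8ce_ag), module SWP: exchange of the two variables of `F(t)(s)`
-/

set_option autoImplicit false

open Polynomial

namespace Pool.Agent.Helper19.HV

noncomputable section

open PL

/-- The inclusion `F[t][s] → F(t)(s)`. -/
private def swJ (F : Type) [Field F] : F[X][X] →+* RatFunc (RatFunc F) :=
  (algebraMap (RatFunc F)[X] (RatFunc (RatFunc F))).comp
    (Polynomial.mapRingHom (algebraMap F[X] (RatFunc F)))

private theorem swJ_apply {F : Type} [Field F] (P : F[X][X]) :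
    swJ F P = algebraMap (RatFunc F)[X] (RatFunc (RatFunc F))
      (P.map (algebraMap F[X] (RatFunc F))) := rfl

private theorem swJ_inj (F : Type) [Field F] : Function.Injective (swJ F) :=
  (IsFractionRing.injective (RatFunc F)[X] (RatFunc (RatFunc F))).comp
    (Polynomial.map_injective _ (IsFractionRing.injective F[X] (RatFunc F)))

/-- The exchange of the variables on `F[t][s]`. -/
private def swS (F : Type) [Field F] : F[X][X] →+* F[X][X] :=
  ((Bivariate.swap : F[X][X] ≃ₐ[F] F[X][X]) : F[X][X] →+* F[X][X])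

private theorem swS_inj (F : Type) [Field F] : Function.Injective (swS F) :=
  (Bivariate.swap : F[X][X] ≃ₐ[F] F[X][X]).injective

private theorem swS_X (F : Type) [Field F] : swS F X = C X := Bivariate.swap_Y

private theorem swS_CX (F : Type) [Field F] : swS F (C X) = X := Bivariate.swap_X

private theorem swS_CC (F : Type) [Field F] (c : F) : swS F (C (C c)) = C (C c) :=
  Bivariate.swap_C_C c

/-- Clearing denominators in a polynomial over `F(t)`. -/
private theorem swp_clear {F : Type} [Field F] (p : (RatFunc F)[X]) :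
    ∃ b : F[X], b ≠ 0 ∧ ∃ P : F[X][X],
      P.map (algebraMap F[X] (RatFunc F)) = C (algebraMap F[X] (RatFunc F) b) * p := by
  obtain ⟨b, hb, h⟩ := IsLocalization.integerNormalization_spec (nonZeroDivisors F[X]) p
  refine ⟨b, nonZeroDivisors.ne_zero hb, _, h.trans ?_⟩
  rw [← Polynomial.smul_eq_C_mul, algebraMap_smul]

/-- The exchange of the variables on `F(t)(s)`. -/
private theorem swp_hom (F : Type) [Field F] :
    ∃ σ : RatFunc (RatFunc F) →+* RatFunc (RatFunc F), ∀ P, σ (swJ F P) = swJ F (swS F P) := by
  have h1 : Function.Injective ((swJ F).comp ((swS F).comp C)) :=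
    (swJ_inj F).comp ((swS_inj F).comp Polynomial.C_injective)
  let ι : RatFunc F →+* RatFunc (RatFunc F) := IsFractionRing.lift h1
  let Φ : (RatFunc F)[X] →+* RatFunc (RatFunc F) :=
    Polynomial.eval₂RingHom ι (swJ F (swS F X))
  have h2 : ∀ P : F[X][X], Φ (P.map (algebraMap F[X] (RatFunc F))) = swJ F (swS F P) := by
    intro P
    have h3 : Φ.comp (Polynomial.mapRingHom (algebraMap F[X] (RatFunc F))) =
        (swJ F).comp (swS F) := by
      apply Polynomial.ringHom_ext
      · intro p
        simp only [Φ, RingHom.comp_apply, Polynomial.coe_mapRingHom, Polynomial.map_C,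
          Polynomial.coe_eval₂RingHom, Polynomial.eval₂_C, ι]
        exact IsFractionRing.lift_algebraMap h1 p
      · simp only [Φ, RingHom.comp_apply, Polynomial.coe_mapRingHom, Polynomial.map_X,
          Polynomial.coe_eval₂RingHom, Polynomial.eval₂_X]
    exact congrArg (fun g : F[X][X] →+* RatFunc (RatFunc F) => g P) h3
  have h4 : Function.Injective Φ := by
    rw [injective_iff_map_eq_zero]
    intro p hp
    obtain ⟨b, hb, P, hP⟩ := swp_clear p
    have h5 := h2 P
    rw [hP, map_mul, hp, mul_zero] at h5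
    have h6 : P = 0 := swS_inj F ((swJ_inj F (h5.symm.trans (map_zero _).symm)).trans
      (map_zero _).symm)
    rw [h6, Polynomial.map_zero] at hP
    rcases mul_eq_zero.1 hP.symm with h | h
    · exact absurd (Polynomial.C_eq_zero.1 h) (RatFunc.algebraMap_ne_zero hb)
    · exact h
  refine ⟨IsFractionRing.lift h4, fun P => ?_⟩
  rw [swJ_apply, IsFractionRing.lift_algebraMap]
  exact h2 P

/-- The value of a rational function written with powers of `X - c`. -/
private theorem swp_val {L : Type} [Field L] (c : L) (A B : L[X]) (i j : ℕ)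
    (hA : A.eval c ≠ 0) (hB : B.eval c ≠ 0) (f : RatFunc L)
    (hf : f = algebraMap _ (RatFunc L) ((X - C c) ^ i * A) /
      algebraMap _ (RatFunc L) ((X - C c) ^ j * B)) :
    val c (some f) =
      if j < i then some 0 else if i = j then some (A.eval c / B.eval c) else none := by
  have hu : (X - C c : L[X]) ≠ 0 := Polynomial.X_sub_C_ne_zero c
  have hA0 : A ≠ 0 := fun h => hA (by rw [h, Polynomial.eval_zero])
  have hB0 : B ≠ 0 := fun h => hB (by rw [h, Polynomial.eval_zero])
  have hne : ∀ {P : L[X]}, P ≠ 0 → algebraMap _ (RatFunc L) P ≠ 0 :=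
    fun h => RatFunc.algebraMap_ne_zero h
  by_cases h1 : j < i
  · rw [if_pos h1]
    have h2 : f = algebraMap _ (RatFunc L) ((X - C c) ^ (i - j) * A) /
        algebraMap _ (RatFunc L) B := by
      rw [hf, div_eq_div_iff (hne (mul_ne_zero (pow_ne_zero _ hu) hB0)) (hne hB0), ← map_mul,
        ← map_mul]
      obtain ⟨k, rfl⟩ := Nat.exists_eq_add_of_lt h1
      have h3 : j + k + 1 - j = k + 1 := by omega
      rw [h3]
      exact congrArg _ (by ring)
    rw [a6_val_some h2 hB]
    have h3 : i - j ≠ 0 := by omega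
    simp [h3]
  · rw [if_neg h1]
    by_cases h2 : i = j
    · rw [if_pos h2]
      have h3 : f = algebraMap _ (RatFunc L) A / algebraMap _ (RatFunc L) B := by
        rw [hf, h2, div_eq_div_iff (hne (mul_ne_zero (pow_ne_zero _ hu) hB0)) (hne hB0),
          ← map_mul, ← map_mul]
        exact congrArg _ (by ring)
      rw [a6_val_some h3 hB]
    · rw [if_neg h2]
      have h3 : f = algebraMap _ (RatFunc L) A /
          algebraMap _ (RatFunc L) ((X - C c) ^ (j - i) * B) := by
        rw [hf, div_eq_div_iff (hne (mul_ne_zero (pow_ne_zero _ hu) hB0))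
          (hne (mul_ne_zero (pow_ne_zero _ hu) hB0)), ← map_mul, ← map_mul]
        have h4 : i < j := by omega
        obtain ⟨k, rfl⟩ := Nat.exists_eq_add_of_lt h4
        have h5 : i + k + 1 - i = k + 1 := by omega
        rw [h5]
        exact congrArg _ (by ring)
      refine a6_val_none h3 (mul_ne_zero (pow_ne_zero _ hu) hB0) ?_ hA
      have h4 : j - i ≠ 0 := by omega
      simp [h4]

/-- Factoring out the zero at `s = c` of a nonzero polynomial in `F[t][s]`. -/
private theorem swp_fac {F : Type} [Field F] (c : F) (P : F[X][X]) (hP : P ≠ 0) :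
    ∃ (i : ℕ) (A : F[X][X]), P = (X - C (C c)) ^ i * A ∧ A.eval (C c) ≠ 0 := by
  obtain ⟨A, hA, hA2⟩ := Polynomial.exists_eq_pow_rootMultiplicity_mul_and_not_dvd P hP (C c)
  refine ⟨_, A, hA, fun h => hA2 ?_⟩
  rw [Polynomial.dvd_iff_isRoot]
  exact h

/-- Evaluation at `s = c` in `F(t)[s]`. -/
private theorem swp_evs {F : Type} [Field F] (c : F) (P : F[X][X]) :
    (P.map (algebraMap F[X] (RatFunc F))).eval (RatFunc.C c) =
      algebraMap F[X] (RatFunc F) (P.eval (C c)) := by
  rw [← RatFunc.algebraMap_C, Polynomial.eval_map_apply]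

/-- Evaluation at `s = b` after the exchange of the variables. -/
private theorem swp_evt {F : Type} [Field F] (b : F) (P : F[X][X]) :
    ((swS F P).map (algebraMap F[X] (RatFunc F))).eval (RatFunc.C b) =
      algebraMap F[X] (RatFunc F) (P.map (Polynomial.evalRingHom b)) := by
  rw [swp_evs]
  have h : (Polynomial.evalRingHom (C b : F[X])).comp (swS F) =
      Polynomial.mapRingHom (Polynomial.evalRingHom b) := by
    apply Polynomial.ringHom_ext'
    · apply Polynomial.ringHom_ext
      · intro a
        simp only [RingHom.comp_apply, swS_CC, Polynomial.coe_evalRingHom, Polynomial.eval_C,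
          Polynomial.coe_mapRingHom, Polynomial.map_C]
      · simp only [RingHom.comp_apply, swS_CX, Polynomial.coe_evalRingHom, Polynomial.eval_X,
          Polynomial.coe_mapRingHom, Polynomial.map_C]
    · simp only [RingHom.comp_apply, swS_X, Polynomial.coe_evalRingHom, Polynomial.eval_C,
        Polynomial.coe_mapRingHom, Polynomial.map_X]
  exact congrArg (algebraMap F[X] (RatFunc F))
    (congrArg (fun g : F[X][X] →+* F[X] => g P) h)

/-- One function and one constant. -/
private theorem swp_one {F : Type} [Field F]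
    (σ : RatFunc (RatFunc F) →+* RatFunc (RatFunc F))
    (hσ : ∀ P, σ (swJ F P) = swJ F (swS F P)) (c : F) (x : P1 (RatFunc (RatFunc F))) :
    ∃ S : Finset F, ∀ b ∉ S,
      val c (val (RatFunc.C b) (Option.map σ x)) = val b (val (RatFunc.C c : RatFunc F) x) := by
  classical
  rcases x with _ | f
  · exact ⟨∅, fun b _ => rfl⟩
  -- a fraction
  obtain ⟨P, Q, hQ, hf⟩ : ∃ P Q : F[X][X], Q ≠ 0 ∧ f = swJ F P / swJ F Q := by
    obtain ⟨d, hd, N, hN⟩ := swp_clear f.num
    obtain ⟨e, he, D, hD⟩ := swp_clear f.denom
    have hD0 : D ≠ 0 := by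
      intro h
      rw [h, Polynomial.map_zero] at hD
      rcases mul_eq_zero.1 hD.symm with h | h
      · exact RatFunc.algebraMap_ne_zero he (Polynomial.C_eq_zero.1 h)
      · exact RatFunc.denom_ne_zero f h
    refine ⟨C e * N, C d * D, mul_ne_zero (Polynomial.C_ne_zero.2 hd) hD0, ?_⟩
    have h1 : swJ F (C e * N) = algebraMap _ _ (C (algebraMap F[X] (RatFunc F) e) *
        (C (algebraMap F[X] (RatFunc F) d) * f.num)) := by
      rw [swJ_apply, Polynomial.map_mul, Polynomial.map_C, hN]
    have h2 : swJ F (C d * D) = algebraMap _ _ (C (algebraMap F[X] (RatFunc F) d) *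
        (C (algebraMap F[X] (RatFunc F) e) * f.denom)) := by
      rw [swJ_apply, Polynomial.map_mul, Polynomial.map_C, hD]
    have h3 : algebraMap _ (RatFunc (RatFunc F)) (C (algebraMap F[X] (RatFunc F) d)) ≠ 0 :=
      RatFunc.algebraMap_ne_zero (Polynomial.C_ne_zero.2 (RatFunc.algebraMap_ne_zero hd))
    have h4 : algebraMap _ (RatFunc (RatFunc F)) (C (algebraMap F[X] (RatFunc F) e)) ≠ 0 :=
      RatFunc.algebraMap_ne_zero (Polynomial.C_ne_zero.2 (RatFunc.algebraMap_ne_zero he))
    have h5 : algebraMap _ (RatFunc (RatFunc F)) f.denom ≠ 0 :=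
      RatFunc.algebraMap_ne_zero (RatFunc.denom_ne_zero f)
    rw [h1, h2, map_mul, map_mul, map_mul, map_mul]
    conv_lhs => rw [← RatFunc.num_div_denom f]
    rw [div_eq_div_iff h5 (mul_ne_zero h3 (mul_ne_zero h4 h5))]
    ring
  by_cases hP : P = 0
  · refine ⟨∅, fun b _ => ?_⟩
    have h0 : ∀ (L : Type) [Field L] (a : L), val a (some (0 : RatFunc L)) = some 0 := by
      intro L _ a
      rw [a6_val_some (P := 0) (Q := 1) (by rw [map_zero, zero_div])
        (by rw [Polynomial.eval_one]; exact one_ne_zero), Polynomial.eval_zero, zero_div]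
    have h1 : f = 0 := by rw [hf, hP, map_zero, zero_div]
    rw [h1, Option.map_some, map_zero, h0, h0, h0, h0]
  obtain ⟨i, A, hPA, hA⟩ := swp_fac c P hP
  obtain ⟨j, B, hQB, hB⟩ := swp_fac c Q hQ
  refine ⟨((A.eval (C c)).roots + (B.eval (C c)).roots).toFinset, fun b hb => ?_⟩
  rw [Multiset.mem_toFinset, Multiset.mem_add, not_or, Polynomial.mem_roots hA,
    Polynomial.mem_roots hB] at hb
  obtain ⟨hbA, hbB⟩ := hb
  have hbA' : (A.eval (C c)).eval b ≠ 0 := hbA
  have hbB' : (B.eval (C c)).eval b ≠ 0 := hbB
  -- first order: `s = c`, then `t = b`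
  have e1 : val (RatFunc.C c : RatFunc F) (some f) = if j < i then some 0 else if i = j then
      some (algebraMap F[X] (RatFunc F) (A.eval (C c)) /
        algebraMap F[X] (RatFunc F) (B.eval (C c))) else none := by
    have hA' : (A.map (algebraMap F[X] (RatFunc F))).eval (RatFunc.C c) ≠ 0 := by
      rw [swp_evs]
      exact RatFunc.algebraMap_ne_zero hA
    have hB' : (B.map (algebraMap F[X] (RatFunc F))).eval (RatFunc.C c) ≠ 0 := by
      rw [swp_evs]
      exact RatFunc.algebraMap_ne_zero hB
    rw [swp_val (RatFunc.C c) _ _ i j hA' hB' f ?_, swp_evs, swp_evs]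
    rw [hf, hPA, hQB, swJ_apply, swJ_apply]
    simp only [Polynomial.map_mul, Polynomial.map_pow, Polynomial.map_sub, Polynomial.map_X,
      Polynomial.map_C, RatFunc.algebraMap_C]
  have e2 : val b (val (RatFunc.C c : RatFunc F) (some f)) =
      if j < i then some 0 else if i = j then
      some ((A.eval (C c)).eval b / (B.eval (C c)).eval b) else none := by
    rw [e1]
    split_ifs with h1 h2
    · rw [a6_val_some (P := 0) (Q := 1) (by rw [map_zero, zero_div])
        (by rw [Polynomial.eval_one]; exact one_ne_zero), Polynomial.eval_zero, zero_div]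
    · exact a6_val_some rfl hbB'
    · rfl
  -- second order: `s = b` after the exchange, then `t = c`
  have hev : ∀ R : F[X][X], (R.map (Polynomial.evalRingHom b)).eval c =
      (R.eval (C c)).eval b := by
    intro R
    have h : (Polynomial.evalRingHom c).comp
        (Polynomial.mapRingHom (Polynomial.evalRingHom b)) =
        (Polynomial.evalRingHom b).comp (Polynomial.evalRingHom (C c : F[X])) := by
      apply Polynomial.ringHom_ext
      · intro p
        simp
      · simp
    exact congrArg (fun g : F[X][X] →+* F => g R) h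
  have hb0 : (Q.map (Polynomial.evalRingHom b)) ≠ 0 := by
    rw [hQB, Polynomial.map_mul]
    refine mul_ne_zero ?_ ?_
    · rw [Polynomial.map_pow]
      refine pow_ne_zero _ ?_
      have : (X - C (C c) : F[X][X]).map (Polynomial.evalRingHom b) = X - C c := by simp
      rw [this]
      exact Polynomial.X_sub_C_ne_zero c
    · intro h
      have h1 := hev B
      rw [h, Polynomial.eval_zero] at h1
      exact hbB' h1.symm
  have e3 : val (RatFunc.C b) (some (σ f)) =
      some (algebraMap F[X] (RatFunc F) (P.map (Polynomial.evalRingHom b)) /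
        algebraMap F[X] (RatFunc F) (Q.map (Polynomial.evalRingHom b))) := by
    have h1 : σ f = algebraMap _ _ ((swS F P).map (algebraMap F[X] (RatFunc F))) /
        algebraMap _ _ ((swS F Q).map (algebraMap F[X] (RatFunc F))) := by
      rw [hf, map_div₀, hσ, hσ]
      rfl
    have h2 : ((swS F Q).map (algebraMap F[X] (RatFunc F))).eval (RatFunc.C b) ≠ 0 := by
      rw [swp_evt]
      exact RatFunc.algebraMap_ne_zero hb0
    rw [a6_val_some h1 h2, swp_evt, swp_evt]
  have e4 : val c (val (RatFunc.C b) (Option.map σ (some f))) =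
      if j < i then some 0 else if i = j then
      some ((A.eval (C c)).eval b / (B.eval (C c)).eval b) else none := by
    rw [Option.map_some, e3]
    have hA' : (A.map (Polynomial.evalRingHom b)).eval c ≠ 0 := by rw [hev]; exact hbA'
    have hB' : (B.map (Polynomial.evalRingHom b)).eval c ≠ 0 := by rw [hev]; exact hbB'
    rw [swp_val c _ _ i j hA' hB' _ ?_, hev, hev]
    rw [hPA, hQB]
    simp only [Polynomial.map_mul, Polynomial.map_pow, Polynomial.map_sub, Polynomial.map_X,
      Polynomial.map_C, Polynomial.coe_evalRingHom, Polynomial.eval_C]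
  exact e4.trans e2.symm

/-- SWP.  Exchange of the two variables and specialisation. -/
theorem mSWP {F : Type} [Field F] :
    ∃ σ : RatFunc (RatFunc F) →+* RatFunc (RatFunc F), ∀ α : ZP (RatFunc (RatFunc F)),
      ∃ S : Finset F, ∀ b ∉ S,
        spec (0 : F) (spec (RatFunc.C b) (mapP σ α)) = spec b (spec (0 : RatFunc F) α) ∧
        spec (1 : F) (spec (RatFunc.C b) (mapP σ α)) = spec b (spec (1 : RatFunc F) α) := by
  classical
  obtain ⟨σ, hσ⟩ := swp_hom F
  refine ⟨σ, fun α => ?_⟩
  choose S hS using fun (c : F) (x : P1 (RatFunc (RatFunc F))) => swp_one σ hσ c x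
  refine ⟨α.support.biUnion (S 0) ∪ α.support.biUnion (S 1), fun b hb => ?_⟩
  rw [Finset.mem_union, not_or] at hb
  have key : ∀ c : F, b ∉ α.support.biUnion (S c) →
      spec c (spec (RatFunc.C b) (mapP σ α)) = spec b (spec (RatFunc.C c : RatFunc F) α) := by
    intro c hc
    simp only [spec, mapP, Finsupp.lmapDomain_apply]
    rw [← Finsupp.mapDomain_comp, ← Finsupp.mapDomain_comp, ← Finsupp.mapDomain_comp]
    refine Finsupp.mapDomain_congr fun x hx => ?_
    refine hS c x b fun h => hc ?_
    exact Finset.mem_biUnion.2 ⟨x, hx, h⟩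
  have k0 := key 0 hb.1
  have k1 := key 1 hb.2
  rw [map_zero] at k0
  rw [map_one] at k1
  exact ⟨k0, k1⟩

end

end Pool.Agent.Helper19.HV
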